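import Pool.Agent.N139.AS.Hnn

/-!
# Project AS (helper139), REDH: reduction of stability to exact actions of windows (helper413)

The reduction is proved for every class of groups with bi-invariant pseudometrics (`red`), and applied
to the unitary groups.
-/

set_option autoImplicit false

namespace Pool.Agent.N413.AS

open Filter Topology
open Pool.Agent.N139.AS
open Pool.Agent.H698R3.Amalg

section win

variable {N : Type} [Group N] (S : WD N)

/-- the window as a finite group -/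
abbrev FF (R : ℕ) : Type := S.W (-R) R

/-- the domain of the shift -/
def AA (R : ℕ) : Subgroup (FF S R) := (S.W (-R) (R - 1)).subgroupOf (S.W (-R) R)

/-- the range of the shift -/
def BB (R : ℕ) : Subgroup (FF S R) := (S.W (-R + 1) R).subgroupOf (S.W (-R) R)

variable {S}

theorem sh_mem (hS : S.Ok) (R : ℕ) {n : N} (h : n ∈ S.W (-R) (R - 1)) :
    S.σ n ∈ S.W (-R + 1) R := by
  have h1 := (hS.shift (-R) (R - 1) n).2 h
  rwa [sub_add_cancel] at h1

theorem sh_mem' (hS : S.Ok) (R : ℕ) {n : N} (h : n ∈ S.W (-R + 1) R) :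
    S.σ⁻¹ n ∈ S.W (-R) (R - 1) := by
  have h1 := (hS.shift (-R) (R - 1) (S.σ⁻¹ n)).1
  rw [sub_add_cancel, MulAut.apply_inv_self] at h1
  exact h1 h

/-- the shift -/
def shf (hS : S.Ok) (R : ℕ) : AA S R ≃* BB S R where
  toFun a := ⟨⟨S.σ a.1.1, hS.mono _ _ _ _ (by omega) le_rfl (sh_mem hS R a.2)⟩, sh_mem hS R a.2⟩
  invFun b := ⟨⟨S.σ⁻¹ b.1.1, hS.mono _ _ _ _ le_rfl (by omega) (sh_mem' hS R b.2)⟩,
    sh_mem' hS R b.2⟩
  left_inv a := Subtype.ext (Subtype.ext (MulAut.inv_apply_self _ S.σ a.1.1))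
  right_inv b := Subtype.ext (Subtype.ext (MulAut.apply_inv_self _ S.σ b.1.1))
  map_mul' a b := Subtype.ext (Subtype.ext (map_mul S.σ a.1.1 b.1.1))

/-- the homomorphism to the group -/
def nu (hS : S.Ok) (R : ℕ) : HNNExtension (FF S R) (AA S R) (BB S R) (shf hS R) →* GG S :=
  HNNExtension.lift ((inn S).comp (S.W (-R) R).subtype) (tt S) (fun a => tt_mul S a.1.1)

theorem nu_of (hS : S.Ok) (R : ℕ) (x : FF S R) : nu hS R (HNNExtension.of x) = inn S x :=
  HNNExtension.lift_of ..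

theorem nu_t (hS : S.Ok) (R : ℕ) : nu hS R HNNExtension.t = tt S :=
  HNNExtension.lift_t ..

open Classical in
/-- a homomorphism of the extension gives an action of the window -/
theorem act_of (hS : S.Ok) (R : ℕ) {H : Type} [Group H]
    (θ : HNNExtension (FF S R) (AA S R) (BB S R) (shf hS R) →* H) :
    Act S R (fun n => if h : n ∈ S.W (-R) R then θ (HNNExtension.of ⟨n, h⟩) else 1)
      (θ HNNExtension.t) where
  mul n hn m hm := by
    show dite _ _ _ = dite _ _ _ * dite _ _ _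
    rw [dif_pos hn, dif_pos hm, dif_pos (mul_mem hn hm), ← map_mul, ← map_mul]
    rfl
  rel n hn := by
    have h1 : n ∈ S.W (-R) R := hS.mono _ _ _ _ le_rfl (by omega) hn
    have h2 : S.σ n ∈ S.W (-R) R := hS.mono _ _ _ _ (by omega) le_rfl (sh_mem hS R hn)
    show _ * dite _ _ _ = dite _ _ _ * _
    rw [dif_pos h1, dif_pos h2, ← map_mul, ← map_mul]
    congr 1
    exact HNNExtension.t_mul_of (φ := shf hS R) ⟨⟨n, h1⟩, hn⟩

end win

theorem red {𝒞 : Cls} (hm : 𝒞.IsMetric)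
    (hst : ∀ (F : Type) [Group F] [Finite F] (A B : Subgroup F) (φ : A ≃* B),
      𝒞.Stable (HNNExtension F A B φ))
    {N : Type} [Group N] {S : WD N} (hS : S.Ok)
    (hyp : ∀ (m : ℕ) (ε : ℝ), 0 < ε → ∃ R : ℕ, m < R ∧
      ∀ (d : ℕ) (α : N → 𝒞.C d) (t : 𝒞.C d), Act S R α t →
        ∃ ψ : GG S →* 𝒞.C d, 𝒞.d d (ψ (tt S)) t ≤ ε ∧
          ∀ n ∈ S.W (-m) m, 𝒞.d d (ψ (inn S n)) (α n) ≤ ε) :
    𝒞.Stable (GG S) := by
  classical
  intro k φ hφ
  have step1 : ∀ (m : ℕ) (ε : ℝ), 0 < ε → ∀ᶠ n in atTop, ∃ ψ : GG S →* 𝒞.C (k n),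
      𝒞.d (k n) (ψ (tt S)) (φ n (tt S)) ≤ ε ∧
        ∀ x ∈ S.W (-m) m, 𝒞.d (k n) (ψ (inn S x)) (φ n (inn S x)) ≤ ε := by
    intro m ε hε
    obtain ⟨R, hmR, hR⟩ := hyp m (ε / 2) (by positivity)
    have hfin : Finite (FF S R) := hS.fin _ _
    obtain ⟨θ, hθ⟩ := hst (FF S R) (AA S R) (BB S R) (shf hS R) k
      (fun n g => φ n (nu hS R g)) (fun a b => by
        simp only [map_mul]
        exact hφ _ _)
    have h1 : ∀ᶠ n in atTop, 𝒞.d (k n) (φ n (tt S)) (θ n HNNExtension.t) ≤ ε / 2 := by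
      have h2 := hθ HNNExtension.t
      rw [nu_t] at h2
      exact (h2.eventually (gt_mem_nhds (half_pos hε))).mono fun n hn => le_of_lt hn
    have h2 : ∀ᶠ n in atTop, ∀ x : FF S R,
        𝒞.d (k n) (φ n (inn S x)) (θ n (HNNExtension.of x)) ≤ ε / 2 := by
      rw [Filter.eventually_all]
      intro x
      have h2 := hθ (HNNExtension.of x)
      rw [nu_of] at h2
      exact (h2.eventually (gt_mem_nhds (half_pos hε))).mono fun n hn => le_of_lt hn
    filter_upwards [h1, h2] with n hn1 hn2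
    obtain ⟨ψ, h3, h4⟩ := hR (k n) _ _ (act_of hS R (θ n))
    refine ⟨ψ, ?_, fun x hx => ?_⟩
    · have h5 := hm.tri (k n) (ψ (tt S)) (θ n HNNExtension.t) (φ n (tt S))
      rw [hm.symm (k n) (θ n HNNExtension.t)] at h5
      linarith
    · have hx' : x ∈ S.W (-R) R := hS.mono _ _ _ _ (by omega) (by omega) hx
      have h6 := h4 x hx
      rw [dif_pos hx'] at h6
      have h5 := hm.tri (k n) (ψ (inn S x)) (θ n (HNNExtension.of ⟨x, hx'⟩)) (φ n (inn S x))
      rw [hm.symm (k n) (θ n (HNNExtension.of ⟨x, hx'⟩))] at h5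
      have h7 := hn2 ⟨x, hx'⟩
      linarith
  obtain ⟨κ, hκ1, hκ2⟩ := diag (fun m n => ∃ ψ : GG S →* 𝒞.C (k n), 0 < m →
      (𝒞.d (k n) (ψ (tt S)) (φ n (tt S)) ≤ 1 / ((m : ℝ) + 1) ∧
        ∀ x ∈ S.W (-m) m, 𝒞.d (k n) (ψ (inn S x)) (φ n (inn S x)) ≤ 1 / ((m : ℝ) + 1)))
    (fun n => ⟨1, fun h => absurd h (lt_irrefl 0)⟩)
    (fun m => (step1 m (1 / ((m : ℝ) + 1)) (by positivity)).mono
      fun n ⟨ψ, h⟩ => ⟨ψ, fun _ => h⟩)
  choose ψ hψ using hκ2
  have hinv : Tendsto (fun n => 1 / ((κ n : ℝ) + 1)) atTop (𝓝 0) :=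
    tendsto_one_div_add_atTop_nhds_zero_nat.comp hκ1
  have hone : Tendsto (fun n => 𝒞.d (k n) (φ n 1) 1) atTop (𝓝 0) := by
    refine (hφ 1 1).congr fun n => ?_
    rw [mul_one]
    have h := hm.left (k n) (φ n 1) (φ n 1) 1
    rw [mul_one] at h
    exact h
  let T : Subgroup (GG S) :=
    { carrier := {a | Tendsto (fun n => 𝒞.d (k n) (φ n a) (ψ n a)) atTop (𝓝 0)}
      mul_mem' := by
        intro a b ha hb
        refine squeeze_zero (fun n => hm.nonneg _ _ _) (fun n => ?_)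
          (by simpa using (hφ a b).add (ha.add hb))
        have h1 := hm.tri (k n) (φ n (a * b)) (φ n a * φ n b) (ψ n (a * b))
        rw [hm.symm (k n) (φ n (a * b)) (φ n a * φ n b), map_mul] at h1
        have h2 := hm.mul_mul (k n) (φ n a) (ψ n a) (φ n b) (ψ n b)
        show 𝒞.d (k n) (φ n (a * b)) (ψ n (a * b)) ≤ _
        rw [map_mul]
        linarith
      one_mem' := by
        show Tendsto (fun n => 𝒞.d (k n) (φ n 1) (ψ n 1)) atTop (𝓝 0)
        simp only [map_one]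
        exact hone
      inv_mem' := by
        intro a ha
        have h1 : Tendsto (fun n => 𝒞.d (k n) (φ n a⁻¹) (φ n a)⁻¹) atTop (𝓝 0) := by
          refine squeeze_zero (fun n => hm.nonneg _ _ _) (fun n => ?_)
            (by simpa using (hφ a a⁻¹).add hone)
          have h2 := hm.left (k n) (φ n a) (φ n a⁻¹) (φ n a)⁻¹
          rw [mul_inv_cancel] at h2
          rw [← h2]
          exact hm.tri _ _ _ _
        refine squeeze_zero (fun n => hm.nonneg _ _ _) (fun n => ?_)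
          (by simpa using h1.add ha)
        have h2 := hm.tri (k n) (φ n a⁻¹) (φ n a)⁻¹ (ψ n a)⁻¹
        rw [hm.inv] at h2
        show 𝒞.d (k n) (φ n a⁻¹) (ψ n a⁻¹) ≤ _
        rw [map_inv]
        exact h2 }
  have hpos : ∀ᶠ n in atTop, 0 < κ n := hκ1.eventually (eventually_gt_atTop 0)
  have ht : tt S ∈ T := by
    refine squeeze_zero' (Eventually.of_forall fun n => hm.nonneg _ _ _) ?_ hinv
    filter_upwards [hpos] with n hn
    rw [hm.symm]
    exact (hψ n hn).1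
  have hi : ∀ x, inn S x ∈ T := by
    intro x
    obtain ⟨r, hr⟩ := hS.exh x
    refine squeeze_zero' (Eventually.of_forall fun n => hm.nonneg _ _ _) ?_ hinv
    filter_upwards [hpos, hκ1.eventually (eventually_ge_atTop r)] with n hn hn2
    rw [hm.symm]
    exact (hψ n hn).2 x (hS.mono _ _ _ _ (by omega) (by omega) hr)
  refine ⟨ψ, fun a => ?_⟩
  have ha : a ∈ T := by
    have e1 : a = inn S a.left * SemidirectProduct.inr a.right :=
      (SemidirectProduct.inl_left_mul_inr_right a).symm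
    have e2 : (SemidirectProduct.inr a.right : GG S) = tt S ^ (Multiplicative.toAdd a.right) := by
      unfold tt
      rw [← map_zpow, ← ofAdd_zsmul]
      simp
    rw [e1, e2]
    exact T.mul_mem (hi _) (T.zpow_mem ht _)
  exact ha

theorem hs_le {d : ℕ} {A B : Matrix (Fin d) (Fin d) ℂ} {ε : ℝ} (hε : 0 < ε)
    (h : fro (A - B) ≤ ε ^ 2 * d) : hsDist A B ≤ ε := by
  rw [hsDist_eq, Fintype.card_fin]
  rcases Nat.eq_zero_or_pos d with rfl | hd
  · simp [hε.le]
  · have h1 : 0 < Real.sqrt d := Real.sqrt_pos.2 (by exact_mod_cast hd)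
    rw [div_le_iff₀ h1]
    have h2 : fn (A - B) ≤ Real.sqrt (ε ^ 2 * d) := Real.sqrt_le_sqrt h
    rwa [Real.sqrt_mul (by positivity), Real.sqrt_sq hε.le] at h2

/-- **REDH.** -/
theorem t_REDH (h : S_FIN) : S_REDH := by
  intro N _ _ S hS hyp
  rw [hsStable_iff]
  refine red hsCls_metric (fun F _ _ A B φ => (hsStable_iff _).1 (hnn_fin h F A B φ).2) hS ?_
  intro m ε hε
  obtain ⟨R, hR, h1⟩ := hyp m (ε ^ 2) (by positivity)
  refine ⟨R, hR, fun d α t ha => ?_⟩
  obtain ⟨ψ, h2, h3⟩ := h1 d α t ha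
  exact ⟨ψ, hs_le hε h2, fun n hn => hs_le hε (h3 n hn)⟩

end Pool.Agent.N413.AS
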